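import Mathlib

/-!
Zero-sector reduction by the multipliers `exp (-α k ^ p)`.

For every real `p > 2` and every sufficiently small `α > 0` the diagonal operator with multipliers
`exp (-α k ^ p)` is not zero-sector reducing.
-/

open Polynomial

namespace Pool.Agent.Results.MP_f0d684_an.SmallAlphaFails

/-- The closed sector `S(θ) = {z : |arg z| ≤ θ or z = 0}`. -/
def Sector (θ : ℝ) : Set ℂ := {z | |Complex.arg z| ≤ θ ∨ z = 0}

/-- All the complex zeros of the real polynomial `f` lie in `S` (`f.aroots ℂ` is the multiset of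
the complex zeros of `f`). -/
def ZerosIn (f : ℝ[X]) (S : Set ℂ) : Prop := ∀ z ∈ f.aroots ℂ, z ∈ S

/-- A linear operator `T` on real polynomials is zero-sector reducing if for every
`θ ∈ (0, π/2)` there is `γ ∈ [0, θ)` such that for every nonzero real polynomial `f` with all its
zeros in `S(θ)`, all the zeros of `T f` lie in `S(γ)`. -/
def ZeroSectorReducing (T : ℝ[X] →ₗ[ℝ] ℝ[X]) : Prop :=
  ∀ θ : ℝ, 0 < θ → θ < Real.pi / 2 → ∃ γ : ℝ, 0 ≤ γ ∧ γ < θ ∧
    ∀ f : ℝ[X], f ≠ 0 → ZerosIn f (Sector θ) → ZerosIn (T f) (Sector γ)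

/-- The diagonal operator `z ^ k ↦ c k * z ^ k`. -/
noncomputable def diagOp (c : ℕ → ℝ) : ℝ[X] →ₗ[ℝ] ℝ[X] :=
  Polynomial.lsum fun k => (Polynomial.monomial k).comp (c k • LinearMap.id)

/-- The operator `T_{α,p}`, with multipliers `exp (-α k ^ p)`. -/
noncomputable def expOp (α p : ℝ) : ℝ[X] →ₗ[ℝ] ℝ[X] :=
  diagOp fun k => Real.exp (-α * (k : ℝ) ^ p)

lemma diagOp_monomial (c : ℕ → ℝ) (k : ℕ) (a : ℝ) :
    diagOp c (monomial k a) = monomial k (c k * a) := by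
  simp [diagOp, Polynomial.lsum_apply]

/-- A zero-sector reducing operator maps polynomials with zeros in `[0, ∞)` to such. -/
lemma real_zeros {T : ℝ[X] →ₗ[ℝ] ℝ[X]} (hT : ZeroSectorReducing T) {f : ℝ[X]} (hf : f ≠ 0)
    (h : ∀ z ∈ f.aroots ℂ, Complex.arg z = 0) {z : ℂ} (hz : z ∈ (T f).aroots ℂ) :
    z = (z.re : ℂ) := by
  by_cases hz0 : z = 0
  · simp [hz0]
  have key : ∀ θ : ℝ, 0 < θ → θ < Real.pi / 2 → |Complex.arg z| < θ := by
    intro θ h0 h1
    obtain ⟨γ, _, h3, h4⟩ := hT θ h0 h1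
    have := h4 f hf (fun w hw => Or.inl (by rw [h w hw]; simpa using h0.le)) z hz
    rcases this with h5 | h5
    · exact lt_of_le_of_lt h5 h3
    · exact absurd h5 hz0
  have h0 : |Complex.arg z| = 0 := by
    by_contra hne
    have hpos : 0 < |Complex.arg z| := lt_of_le_of_ne (abs_nonneg _) (Ne.symm hne)
    have hpi := Real.pi_pos
    have h1 := key (min |Complex.arg z| (Real.pi / 4)) (lt_min hpos (by positivity))
      (lt_of_le_of_lt (min_le_right _ _) (by linarith))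
    exact absurd h1 (not_lt.mpr (min_le_left _ _))
  have h1 : Complex.arg z = 0 := abs_eq_zero.mp h0
  have h2 := (Complex.arg_eq_zero_iff.mp h1).2
  exact Complex.ext rfl (by simp [h2])

/-- The test polynomial `(X - 1) ^ 3`. -/
noncomputable def testPoly : ℝ[X] := (X - C 1) ^ 3

lemma testPoly_eq : testPoly =
    monomial 3 1 + monomial 2 (-3) + monomial 1 3 + monomial 0 (-1) := by
  simp only [testPoly, ← C_mul_X_pow_eq_monomial]
  simp only [map_neg, C_1, map_ofNat]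
  ring

lemma testPoly_ne : testPoly ≠ 0 := pow_ne_zero _ (X_sub_C_ne_zero 1)

lemma testPoly_aroots {z : ℂ} (hz : z ∈ testPoly.aroots ℂ) : Complex.arg z = 0 := by
  have h := (mem_aroots.mp hz).2
  simp only [testPoly, map_pow, map_sub, aeval_X, map_one] at h
  have h2 : z = 1 := sub_eq_zero.mp (pow_eq_zero_iff (by norm_num) |>.mp h)
  simp [h2]

lemma discr_nonneg_of_zsr {α p : ℝ} (hp : 2 < p) (hT : ZeroSectorReducing (expOp α p)) :
    0 ≤ (4 * (Real.exp (-α * (2:ℝ) ^ p) ^ 2 - Real.exp (-α * (3:ℝ) ^ p) * Real.exp (-α)) *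
        (Real.exp (-α) ^ 2 - Real.exp (-α * (2:ℝ) ^ p)) -
        (Real.exp (-α * (3:ℝ) ^ p) - Real.exp (-α * (2:ℝ) ^ p) * Real.exp (-α)) ^ 2) := by
  set A := Real.exp (-α * (3:ℝ) ^ p) with hA
  set B := Real.exp (-α * (2:ℝ) ^ p) with hB
  set E := Real.exp (-α) with hE
  let P : Cubic ℝ := ⟨A, -(3 * B), 3 * E, -1⟩
  have hPT : P.toPoly = expOp α p testPoly := by
    rw [testPoly_eq, map_add, map_add, map_add, expOp, diagOp_monomial, diagOp_monomial,
      diagOp_monomial, diagOp_monomial]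
    have hp0 : p ≠ 0 := by linarith
    have e3 : Real.exp (-α * ((3:ℕ):ℝ) ^ p) * 1 = A := by rw [hA]; norm_num
    have e2 : Real.exp (-α * ((2:ℕ):ℝ) ^ p) * (-3) = -(3 * B) := by rw [hB]; push_cast; ring
    have e1 : Real.exp (-α * ((1:ℕ):ℝ) ^ p) * 3 = 3 * E := by
      rw [hE]; push_cast; rw [Real.one_rpow]; ring_nf
    have e0 : Real.exp (-α * ((0:ℕ):ℝ) ^ p) * (-1) = -1 := by
      push_cast; rw [Real.zero_rpow hp0]; simp
    rw [e3, e2, e1, e0]
    simp only [Cubic.toPoly, P, ← C_mul_X_pow_eq_monomial]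
    simp
  have ha : P.a ≠ 0 := (Real.exp_pos _).ne'
  have hsplit : Splits (P.toPoly.map (algebraMap ℝ ℂ)) := IsAlgClosed.splits _
  obtain ⟨x, y, z, h3⟩ := (Cubic.splits_iff_roots_eq_three ha).mp hsplit
  have hroots : (P.map (algebraMap ℝ ℂ)).roots = (expOp α p testPoly).aroots ℂ := by
    rw [← hPT, Polynomial.aroots_def, Cubic.map_roots]
  have hx : x ∈ (expOp α p testPoly).aroots ℂ := by rw [← hroots, h3]; simp
  have hy : y ∈ (expOp α p testPoly).aroots ℂ := by rw [← hroots, h3]; simp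
  have hz : z ∈ (expOp α p testPoly).aroots ℂ := by rw [← hroots, h3]; simp
  have rx := real_zeros hT testPoly_ne (fun w hw => testPoly_aroots hw) hx
  have ry := real_zeros hT testPoly_ne (fun w hw => testPoly_aroots hw) hy
  have rz := real_zeros hT testPoly_ne (fun w hw => testPoly_aroots hw) hz
  have hd := Cubic.discr_eq_prod_three_roots ha h3
  rw [rx, ry, rz] at hd
  have hd' : P.discr = (P.a * P.a * (x.re - y.re) * (x.re - z.re) * (y.re - z.re)) ^ 2 := by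
    have : ((P.discr : ℝ) : ℂ) =
        (((P.a * P.a * (x.re - y.re) * (x.re - z.re) * (y.re - z.re)) ^ 2 : ℝ) : ℂ) := by
      push_cast
      simpa using hd
    exact_mod_cast this
  have hnn : 0 ≤ P.discr := by rw [hd']; positivity
  have hform : P.discr = 27 * (4 * (B ^ 2 - A * E) * (E ^ 2 - B) - (A - B * E) ^ 2) := by
    simp only [Cubic.discr, P]
    ring
  rw [hform] at hnn
  linarith

lemma pow_gap {p : ℝ} (hp : 2 < p) : 0 < (3:ℝ) ^ p - 3 * (2:ℝ) ^ p + 3 := by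
  have h2 : (2:ℝ) ^ p = 4 * (2:ℝ) ^ (p - 2) := by
    rw [Real.rpow_sub (by norm_num)]; norm_num; ring
  have h3 : (3:ℝ) ^ p = 9 * (3:ℝ) ^ (p - 2) := by
    rw [Real.rpow_sub (by norm_num)]; norm_num; ring
  have hq : 0 < p - 2 := by linarith
  have am := Real.geom_mean_le_arith_mean2_weighted (w₁ := 3 / 4) (w₂ := 1 / 4)
    (p₁ := (3:ℝ) ^ (p - 2)) (p₂ := 1) (by norm_num) (by norm_num) (by positivity) (by norm_num)
    (by norm_num)
  have e1 : ((3:ℝ) ^ (p - 2)) ^ (3 / 4 : ℝ) * (1:ℝ) ^ (1 / 4 : ℝ) =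
      ((3:ℝ) ^ (3 / 4 : ℝ)) ^ (p - 2) := by
    rw [Real.one_rpow, mul_one, ← Real.rpow_mul (by norm_num), ← Real.rpow_mul (by norm_num),
      mul_comm]
  have e2 : (2:ℝ) < (3:ℝ) ^ (3 / 4 : ℝ) := by
    have h : ((2:ℝ) ^ (4:ℝ)) ^ (1 / 4 : ℝ) < ((3:ℝ) ^ (3:ℝ)) ^ (1 / 4 : ℝ) := by
      apply Real.rpow_lt_rpow (by positivity) _ (by norm_num)
      have a : (2:ℝ) ^ (4:ℝ) = 16 := by
        rw [show (4:ℝ) = ((4:ℕ):ℝ) by norm_num, Real.rpow_natCast]; norm_num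
      have b : (3:ℝ) ^ (3:ℝ) = 27 := by
        rw [show (3:ℝ) = ((3:ℕ):ℝ) by norm_num, Real.rpow_natCast]; norm_num
      rw [a, b]; norm_num
    rw [← Real.rpow_mul (by norm_num), ← Real.rpow_mul (by norm_num)] at h
    norm_num at h
    convert h using 2
  have e3 : (2:ℝ) ^ (p - 2) < ((3:ℝ) ^ (3 / 4 : ℝ)) ^ (p - 2) :=
    Real.rpow_lt_rpow (by norm_num) e2 hq
  rw [e1] at am
  rw [h2, h3]
  linarith

lemma slope_lim (c d : ℝ) :
    Filter.Tendsto (fun t : ℝ => t⁻¹ * (Real.exp (-t * c) - Real.exp (-t * d)))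
      (nhdsWithin 0 (Set.Ioi 0)) (nhds (d - c)) := by
  have h : HasDerivAt (fun t : ℝ => Real.exp (-t * c) - Real.exp (-t * d)) (d - c) 0 := by
    have h1 : HasDerivAt (fun t : ℝ => Real.exp (-t * c)) (Real.exp (-0 * c) * (-1 * c)) 0 :=
      ((hasDerivAt_id (0:ℝ)).neg.mul_const c).exp
    have h2 : HasDerivAt (fun t : ℝ => Real.exp (-t * d)) (Real.exp (-0 * d) * (-1 * d)) 0 :=
      ((hasDerivAt_id (0:ℝ)).neg.mul_const d).exp
    have h3 := h1.sub h2
    have h4 : Real.exp (-0 * c) * (-1 * c) - Real.exp (-0 * d) * (-1 * d) = d - c := by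
      rw [neg_zero, zero_mul, zero_mul, Real.exp_zero]
      ring
    rw [h4] at h3
    exact h3
  have h' := hasDerivAt_iff_tendsto_slope_zero.mp h
  have h'' := h'.mono_left (nhdsWithin_mono 0 (s := Set.Ioi (0:ℝ)) (t := {0}ᶜ)
    (fun x hx => by simpa using (ne_of_gt hx)))
  simpa using h''

/-- **Negative answer.** For every real `p > 2` there is `α₀ > 0` such that for all
`0 < α < α₀` the operator `T_{α,p}` is not zero-sector reducing. -/
theorem result :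
    ∀ p : ℝ, 2 < p → ∃ α₀ : ℝ, 0 < α₀ ∧ ∀ α : ℝ, 0 < α → α < α₀ →
      ¬ ZeroSectorReducing (expOp α p) := by
  intro p hp
  have l1 := slope_lim (2 * (2:ℝ) ^ p) ((3:ℝ) ^ p + 1)
  have l2 := slope_lim 2 ((2:ℝ) ^ p)
  have l3 := slope_lim ((3:ℝ) ^ p) ((2:ℝ) ^ p + 1)
  have l4 := ((l1.const_mul 4).mul l2).sub (l3.pow 2)
  have hneg : 4 * ((3:ℝ) ^ p + 1 - 2 * (2:ℝ) ^ p) * ((2:ℝ) ^ p - 2) -
      ((2:ℝ) ^ p + 1 - (3:ℝ) ^ p) ^ 2 < 0 := by
    have h := pow_gap hp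
    have h2 : 4 * ((3:ℝ) ^ p + 1 - 2 * (2:ℝ) ^ p) * ((2:ℝ) ^ p - 2) -
      ((2:ℝ) ^ p + 1 - (3:ℝ) ^ p) ^ 2 = -((3:ℝ) ^ p - 3 * (2:ℝ) ^ p + 3) ^ 2 := by ring
    rw [h2]
    have := pow_pos h 2
    linarith
  have hev := l4.eventually_lt_const hneg
  obtain ⟨u, hu, hsub⟩ := mem_nhdsGT_iff_exists_Ioo_subset.mp hev
  refine ⟨u, hu, fun α h0 h1 hT => ?_⟩
  have hα := hsub (⟨h0, h1⟩ : α ∈ Set.Ioo 0 u)
  change _ < (0:ℝ) at hα
  have hD := discr_nonneg_of_zsr hp hT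
  have x1 : Real.exp (-α * (2 * (2:ℝ) ^ p)) = Real.exp (-α * (2:ℝ) ^ p) ^ 2 := by
    rw [← Real.exp_nat_mul]; congr 1; push_cast; ring
  have x2 : Real.exp (-α * ((3:ℝ) ^ p + 1)) =
      Real.exp (-α * (3:ℝ) ^ p) * Real.exp (-α) := by
    rw [← Real.exp_add]; congr 1; ring
  have x3 : Real.exp (-α * 2) = Real.exp (-α) ^ 2 := by
    rw [← Real.exp_nat_mul]; congr 1; push_cast; ring
  have x4 : Real.exp (-α * ((2:ℝ) ^ p + 1)) =
      Real.exp (-α * (2:ℝ) ^ p) * Real.exp (-α) := by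
    rw [← Real.exp_add]; congr 1; ring
  rw [x1, x2, x3, x4] at hα
  have hα2 : 0 < (α⁻¹) ^ 2 := by positivity
  have hmul := mul_nonneg hα2.le hD
  apply absurd hα
  apply not_lt.mpr
  calc (0:ℝ) ≤ _ := hmul
    _ = _ := by ring

end Pool.Agent.Results.MP_f0d684_an.SmallAlphaFails
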